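import Pool.Agent.H88.Tub3

open Pool.Agent.H88.Tub

theorem Pool.Agent.Results.MP_ef0505_an.Counter.result :
    ∃ (m n : ℕ) (D : Finset (Fin m × Fin n)) (F : Set (EuclideanSpace ℝ (Fin 2))),
      2 ≤ m ∧ m < n ∧ D.Nonempty ∧ D ≠ Finset.univ ∧ IsCarpet m n D F ∧
      ∀ l : ℝ, 0 < l → ¬ TubeNull l F :=
  ⟨3, 5, DD, _, by norm_num, by norm_num, by decide, by decide, carpet,
    fun _ hl => not_null carpet hl⟩
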